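import Mathlib

/-!
Project TY, job DIST: comparison of two critical orbits, abstract form.
-/

set_option autoImplicit false

namespace Pool.Agent.Y405.TY

open Finset

theorem pow_sub_le (a b : ℂ) (M : ℝ) (ha : ‖a‖ ≤ M) (hb : ‖b‖ ≤ M) (d : ℕ) :
    ‖a ^ d - b ^ d‖ ≤ d * M ^ (d - 1) * ‖a - b‖ := by
  have hM : 0 ≤ M := (norm_nonneg a).trans ha
  rw [← geom_sum₂_mul, norm_mul]
  apply mul_le_mul_of_nonneg_right _ (norm_nonneg _)
  refine (norm_sum_le _ _).trans ?_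
  have h1 : ∀ i ∈ range d, ‖a ^ i * b ^ (d - 1 - i)‖ ≤ M ^ (d - 1) := by
    intro i hi
    have hi' : i ≤ d - 1 := by have := mem_range.1 hi; omega
    rw [norm_mul, norm_pow, norm_pow]
    calc ‖a‖ ^ i * ‖b‖ ^ (d - 1 - i) ≤ M ^ i * M ^ (d - 1 - i) := by
          apply mul_le_mul (pow_le_pow_left₀ (norm_nonneg _) ha _)
            (pow_le_pow_left₀ (norm_nonneg _) hb _) (by positivity) (by positivity)
      _ = M ^ (d - 1) := by rw [← pow_add]; congr 1; omega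
  refine (sum_le_sum h1).trans ?_
  rw [sum_const, card_range, nsmul_eq_mul]

/-- the correction exponents -/
noncomputable def ex (j : ℕ) : ℝ := ∑ i ∈ Ico 1 j, 1 / ((i : ℝ) + 1) ^ 2

theorem ex_le (j : ℕ) (hj : 1 ≤ j) : ex j ≤ 1 - 1 / (j : ℝ) := by
  induction j, hj using Nat.le_induction with
  | base => simp [ex]
  | succ j hj ih =>
    have h0 : (0 : ℝ) < j := by exact_mod_cast hj
    have h1 : ex (j + 1) = ex j + 1 / ((j : ℝ) + 1) ^ 2 := by
      unfold ex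
      rw [sum_Ico_succ_top hj]
    rw [h1]
    have h2 : 1 / ((j : ℝ) + 1) ^ 2 ≤ 1 / (j : ℝ) - 1 / ((j : ℝ) + 1) := by
      rw [div_sub_div _ _ h0.ne' (by positivity), div_le_div_iff₀ (by positivity) (by positivity)]
      nlinarith
    push_cast
    linarith

theorem ex_nonneg (j : ℕ) : 0 ≤ ex j := sum_nonneg fun i _ => by positivity

theorem exp_ex_le (j : ℕ) (hj : 1 ≤ j) : Real.exp (ex j) ≤ 3 := by
  have h1 : ex j ≤ 1 := by
    have h2 := ex_le j hj
    have h3 : (0 : ℝ) ≤ 1 / (j : ℝ) := by positivity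
    linarith
  have h2 := Real.exp_le_exp.2 h1
  have h3 := Real.exp_one_lt_d9
  linarith

theorem dist_abs (d : ℕ) (hd : 2 ≤ d) (p q : ℕ → ℂ) (c0 c : ℂ) (m : ℕ → ℝ) (n : ℕ)
    (hp : ∀ j, p (j + 1) = p j ^ d + c0) (hq : ∀ j, q (j + 1) = q j ^ d + c)
    (hp1 : p 1 = c0) (hq1 : q 1 = c) (hm1 : m 1 = 1)
    (hm : ∀ j, 1 ≤ j → m (j + 1) = m j * (d * ‖p j‖ ^ (d - 1)))
    (hpos : ∀ j ∈ Icc 1 n, 0 < m j)
    (hyp : ∀ j ∈ Icc 1 n, 3 * m j * (∑ i ∈ Icc 1 j, 1 / m i) * ‖c - c0‖ ≤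
      ‖p j‖ / (d * ((j : ℝ) + 1) ^ 2)) :
    ∀ j ∈ Icc 1 n, ‖q j - p j‖ ≤ 3 * m j * (∑ i ∈ Icc 1 j, 1 / m i) * ‖c - c0‖ := by
  have hd0 : (0 : ℝ) < d := by exact_mod_cast (by omega : 0 < d)
  have hρ : 0 ≤ ‖c - c0‖ := norm_nonneg _
  have hσ : ∀ j, j ≤ n → 0 ≤ ∑ i ∈ Icc 1 j, 1 / m i := fun j hj => sum_nonneg fun i hi => by
    have h1 := hpos i (mem_Icc.2 ⟨(mem_Icc.1 hi).1, (mem_Icc.1 hi).2.trans hj⟩)
    positivity
  have key : ∀ j, 1 ≤ j → j ≤ n →
      ‖q j - p j‖ ≤ Real.exp (ex j) * m j * (∑ i ∈ Icc 1 j, 1 / m i) * ‖c - c0‖ := by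
    intro j hj
    induction j, hj using Nat.le_induction with
    | base =>
      intro _
      rw [hp1, hq1, hm1]
      simp [ex, hm1]
    | succ j hj ih =>
      intro hjn
      have hjn' : j ≤ n := by omega
      have hjm : j ∈ Icc 1 n := mem_Icc.2 ⟨hj, hjn'⟩
      have h1 := ih hjn'
      have hmj := hpos j hjm
      have hmj1 := hpos (j + 1) (mem_Icc.2 ⟨by omega, hjn⟩)
      have hs := hσ j hjn'
      set S := ∑ i ∈ Icc 1 j, 1 / m i with hS
      have hS1 : ∑ i ∈ Icc 1 (j + 1), 1 / m i = S + 1 / m (j + 1) := by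
        rw [hS, sum_Icc_succ_top (by omega)]
      set t : ℝ := 1 / (d * ((j : ℝ) + 1) ^ 2) with ht
      have ht0 : 0 ≤ t := by positivity
      have h2 : ‖q j - p j‖ ≤ ‖p j‖ * t := by
        have h3 := hyp j hjm
        have h4 : Real.exp (ex j) * m j * S * ‖c - c0‖ ≤ 3 * m j * S * ‖c - c0‖ := by
          apply mul_le_mul_of_nonneg_right _ hρ
          apply mul_le_mul_of_nonneg_right _ hs
          apply mul_le_mul_of_nonneg_right (exp_ex_le j hj) hmj.le
        calc ‖q j - p j‖ ≤ _ := h1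
          _ ≤ _ := h4
          _ ≤ _ := h3
          _ = ‖p j‖ * t := by rw [ht]; ring
      have hq' : ‖q j‖ ≤ ‖p j‖ * (1 + t) := by
        have h5 : ‖q j‖ ≤ ‖q j - p j‖ + ‖p j‖ := by
          have := norm_add_le (q j - p j) (p j)
          rwa [sub_add_cancel] at this
        linarith
      have hp' : ‖p j‖ ≤ ‖p j‖ * (1 + t) := by nlinarith [norm_nonneg (p j)]
      have h6 := pow_sub_le (q j) (p j) _ hq' hp' d
      have h7 : (1 + t) ^ (d - 1) ≤ Real.exp (1 / ((j : ℝ) + 1) ^ 2) := by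
        have h8 : (1 + t) ≤ Real.exp t := by
          have := Real.add_one_le_exp t
          linarith
        calc (1 + t) ^ (d - 1) ≤ Real.exp t ^ (d - 1) :=
              pow_le_pow_left₀ (by linarith) h8 _
          _ = Real.exp ((d - 1 : ℕ) * t) := (Real.exp_nat_mul _ _).symm
          _ ≤ Real.exp (1 / ((j : ℝ) + 1) ^ 2) := by
              apply Real.exp_le_exp.2
              have h9 : (((d - 1 : ℕ)) : ℝ) ≤ d := by exact_mod_cast Nat.sub_le _ _
              calc (((d - 1 : ℕ)) : ℝ) * t ≤ d * t := mul_le_mul_of_nonneg_right h9 ht0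
                _ = 1 / ((j : ℝ) + 1) ^ 2 := by
                    rw [ht]
                    field_simp
      have h10 : q (j + 1) - p (j + 1) = (q j ^ d - p j ^ d) + (c - c0) := by
        rw [hp, hq]; ring
      have h11 : ‖q (j + 1) - p (j + 1)‖ ≤ ‖q j ^ d - p j ^ d‖ + ‖c - c0‖ := by
        rw [h10]; exact norm_add_le _ _
      have hex : ex (j + 1) = ex j + 1 / ((j : ℝ) + 1) ^ 2 := by
        unfold ex
        rw [sum_Ico_succ_top hj]
      set E := Real.exp (1 / ((j : ℝ) + 1) ^ 2) with hE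
      have hE1 : Real.exp (ex (j + 1)) = Real.exp (ex j) * E := by rw [hex, Real.exp_add]
      have hG : 1 ≤ Real.exp (ex (j + 1)) := Real.one_le_exp (ex_nonneg _)
      have h12 : ‖q j ^ d - p j ^ d‖ ≤
          Real.exp (ex (j + 1)) * m (j + 1) * S * ‖c - c0‖ := by
        calc ‖q j ^ d - p j ^ d‖ ≤ d * (‖p j‖ * (1 + t)) ^ (d - 1) * ‖q j - p j‖ := h6
          _ = d * ‖p j‖ ^ (d - 1) * (1 + t) ^ (d - 1) * ‖q j - p j‖ := by rw [mul_pow]; ring
          _ ≤ d * ‖p j‖ ^ (d - 1) * E * (Real.exp (ex j) * m j * S * ‖c - c0‖) := by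
              apply mul_le_mul (mul_le_mul_of_nonneg_left h7 (by positivity)) h1 (norm_nonneg _)
                (by positivity)
          _ = Real.exp (ex (j + 1)) * m (j + 1) * S * ‖c - c0‖ := by
              rw [hE1, hm j hj]; ring
      calc ‖q (j + 1) - p (j + 1)‖ ≤ Real.exp (ex (j + 1)) * m (j + 1) * S * ‖c - c0‖ +
            ‖c - c0‖ := h11.trans (by linarith)
        _ ≤ Real.exp (ex (j + 1)) * m (j + 1) * S * ‖c - c0‖ +
            Real.exp (ex (j + 1)) * ‖c - c0‖ := by nlinarith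
        _ = Real.exp (ex (j + 1)) * m (j + 1) * (∑ i ∈ Icc 1 (j + 1), 1 / m i) * ‖c - c0‖ := by
            rw [hS1]
            have := hmj1.ne'
            field_simp
  intro j hj
  obtain ⟨h1, h2⟩ := mem_Icc.1 hj
  refine (key j h1 h2).trans ?_
  apply mul_le_mul_of_nonneg_right _ hρ
  apply mul_le_mul_of_nonneg_right _ (hσ j h2)
  exact mul_le_mul_of_nonneg_right (exp_ex_le j h1) (hpos j hj).le

end Pool.Agent.Y405.TY
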