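import Pool.Agent.Y272.TY.Stm
import Pool.Agent.Y405.TY.DistA

/-!
Project TY, job DIST: comparison of two critical orbits.
-/

set_option autoImplicit false

namespace Pool.Agent.Y405.TY

open Pool.Agent.H712R2 Pool.Agent.Y272.TY

theorem t : St_Dist := by
  intro d c0 c n hd hpos hyp
  refine dist_abs d hd (fun j => P d j c0) (fun j => P d j c) c0 c (mm d c0) n
    (fun j => P_succ d j c0) (fun j => P_succ d j c) (P_one hd c0) (P_one hd c) ?_ ?_ hpos hyp
  · unfold mm
    simp
  · intro j hj
    unfold mm
    rw [Finset.prod_Ico_succ_top hj]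

end Pool.Agent.Y405.TY
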